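import Pool.Agent.P8H96.RL.Fin
import Pool.Agent.P8H96.RL.Al1
import Pool.Agent.P8H96.RL.Al2
import Pool.Agent.P8H20.RL.Crw
import Pool.Agent.P8H20.RL.Ev
import Pool.Agent.P8H20.RL.Hz
import Pool.Agent.P8H76.RL.Cyc
import Pool.Agent.P8H76.RL.Small
import Pool.Agent.P8H53.RL.Hb
import Pool.Agent.P8H53.RL.Psi
import Pool.Agent.P8H53.RL.Ht
import Pool.Agent.P8H44.RL.Ge
import Pool.Agent.P8H44.RL.Rot
import Pool.Agent.P8H44.RL.Sc
import Pool.Agent.P8H4.RL.Fact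

set_option autoImplicit false

namespace Pool.Agent.P8H96.RL

/-- the main inequality -/
theorem s_main : S_MAIN :=
  Main.main (Pool.Agent.P8H53.RL.hb Pool.Agent.P8H53.RL.psi) Pool.Agent.P8H20.RL.hz
    Pool.Agent.P8H76.RL.sq Pool.Agent.P8H76.RL.gu Pool.Agent.P8H76.RL.gr Pool.Agent.P8H44.RL.ge
    Pool.Agent.P8H44.RL.odd Pool.Agent.P8H4.RL.fact Pool.Agent.P8H20.RL.ev
    Pool.Agent.P8H44.RL.sc Pool.Agent.P8H44.RL.rot Pool.Agent.P8H76.RL.cyc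

end Pool.Agent.P8H96.RL
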