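import Pool.Agent.P8H96.RL.Stm

/-!
# Project RL, two further statements
-/

set_option autoImplicit false

open Polynomial
open scoped Real NumberField

namespace Pool.Agent.P8H96.RL

/-- **HT** (100 lines).  The absolute logarithmic height of Mathlib of an algebraic integer is the
mean of `log⁺` over the conjugates.  (`NumberField.absMulHeight₁` unfolds to the height in
`ℚ(α)`; `NumberField.logHeight₁_eq`: the finite places contribute `log⁺ (v α) = 0` for an integer;
the infinite places of `ℚ(α)` with multiplicity are the embeddings in `ℂ`
(`NumberField.InfinitePlace.card_filter_mk_eq` or the trick of `sum_mult`), and the values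
of the embeddings at the generator are the roots of the minimal polynomial, each once
(`NumberField.Embeddings`, `IntermediateField.adjoin.powerBasis`).  See also
`Pool.Agent.H58P.Ht` for the problem with the two `ℚ`-algebra structures.) -/
def S_HT : Prop :=
  ∀ α : AlgebraicClosure ℚ, IsIntegral ℤ α →
    NumberField.absLogHeight₁ α =
      (((minpoly ℤ α).map (Int.castRingHom ℂ)).roots.map fun z => Real.posLog ‖z‖).sum /
        (minpoly ℤ α).natDegree

end Pool.Agent.P8H96.RL
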