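import Pool.Agent.P8H96.RL.Tau
import Pool.Agent.P8H96.RL.Stm2

set_option autoImplicit false

open Polynomial
open scoped Real NumberField

namespace Pool.Agent.P8H96.RL

open H904L2 Pool.Agent.N772.CZ

namespace Fin

/-- the zeros of the conjugates and the roots multiset -/
theorem zs_eq {k : Type} [Field k] (σ : k →+* ℂ) (f : (𝓞 k)[X]) (hm : f.Monic) :
    zs σ f = {z | z ∈ (f.map (emb σ)).roots} := by
  ext z
  rw [Main.mem_zs, Set.mem_ofPred_eq, mem_roots (hm.map _).ne_zero, IsRoot.def]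

theorem card_roots' {k : Type} [Field k] (σ : k →+* ℂ) (f : (𝓞 k)[X]) (hm : f.Monic) :
    (f.map (emb σ)).roots.card = f.natDegree := by
  rw [← hm.natDegree_map (emb σ)]
  exact (IsAlgClosed.splits _).natDegree_eq_card_roots.symm

/-- the inequality for all monic polynomials -/
theorem area_monic (hmain : S_MAIN) (m : ℕ) [NeZero m] (k : Type) [Field k] [NumberField k]
    [IsCyclotomicExtension {m} ℚ k] (f : (𝓞 k)[X]) (hm : f.Monic)
    (hbig : ∃ (σ : k →+* ℂ), ∃ z ∈ zs σ f, 1 < ‖z‖) :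
    (Module.finrank ℚ k : ℝ) / 640 ≤ f.natDegree * ∑ σ : k →+* ℂ, area (zs σ f) := by
  classical
  obtain ⟨σ, z, hz, hz1⟩ := hbig
  let i1 : Algebra (𝓞 k) ℂ := (emb σ).toAlgebra
  let i2 : Algebra k ℂ := σ.toAlgebra
  have i3 : IsScalarTower (𝓞 k) k ℂ := IsScalarTower.of_algebraMap_eq' rfl
  have i4 : Module.IsTorsionFree (𝓞 k) ℂ := by
    rw [Module.isTorsionFree_iff_algebraMap_injective]
    exact Main.emb_injective σ
  have hint : IsIntegral (𝓞 k) z := by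
    refine ⟨f, hm, ?_⟩
    rw [← eval_map]
    exact hz
  obtain ⟨g, hg⟩ : ∃ g, g = minpoly (𝓞 k) z := ⟨_, rfl⟩
  have hgm : g.Monic := by
    rw [hg]
    exact minpoly.monic hint
  have hgf : g ∣ f := by
    rw [hg]
    apply minpoly.isIntegrallyClosed_dvd hint
    rw [aeval_def, ← eval_map]
    exact hz
  have hgi : Irreducible (g.map (algebraMap (𝓞 k) k)) := by
    rw [hg, ← minpoly.isIntegrallyClosed_eq_field_fractions k ℂ hint]
    exact minpoly.irreducible hint.tower_top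
  have hgz : z ∈ zs σ g := by
    rw [Main.mem_zs, eval_map, hg]
    exact minpoly.aeval (𝓞 k) z
  have h1 := hmain m k g hgm hgi ⟨σ, z, hgz, hz1⟩
  have h2 : ∀ τ : k →+* ℂ, area (zs τ g) ≤ area (zs τ f) := by
    intro τ
    have hπ := Real.pi_pos
    have hsub : zs τ g ⊆ zs τ f := by
      intro w hw
      obtain ⟨q, hq⟩ := hgf
      rw [Main.mem_zs] at hw ⊢
      rw [hq, Polynomial.map_mul, eval_mul, hw, zero_mul]
    apply intervalIntegral.integral_mono_on (by linarith)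
      ((RF_continuous (Main.zs_finite τ g hgm)).intervalIntegrable _ _)
      ((RF_continuous (Main.zs_finite τ f hm)).intervalIntegrable _ _)
    intro u _
    exact RF_mono (Main.zs_finite τ f hm) hsub u
  have h3 : ((g.natDegree : ℕ) : ℝ) ≤ f.natDegree := by
    exact_mod_cast natDegree_le_of_dvd hgf hm.ne_zero
  refine h1.trans (mul_le_mul h3 (Finset.sum_le_sum fun τ _ => h2 τ)
    (Finset.sum_nonneg fun τ _ => Main.area_nonneg _) (Nat.cast_nonneg _))

/-- an algebraic integer which is not a root of unity has a conjugate of absolute value `> 1` -/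
theorem exists_big (α : AlgebraicClosure ℚ) (hα : IsIntegral ℤ α) (h0 : α ≠ 0)
    (h1 : ∀ n : ℕ, 0 < n → α ^ n ≠ 1) :
    ∃ z ∈ ((minpoly ℤ α).map (Int.castRingHom ℂ)).roots, 1 < ‖z‖ := by
  by_contra hcon
  push Not at hcon
  have hm : (minpoly ℤ α).Monic := minpoly.monic hα
  have h2 := Polynomial.mahlerMeasure_eq_leadingCoeff_mul_prod_roots
    ((minpoly ℤ α).map (Int.castRingHom ℂ))
  have hlc : ((minpoly ℤ α).map (Int.castRingHom ℂ)).leadingCoeff = 1 := (hm.map _).leadingCoeff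
  rw [hlc, norm_one, one_mul] at h2
  have h3 : (((minpoly ℤ α).map (Int.castRingHom ℂ)).roots.map fun a => max 1 ‖a‖).prod = 1 := by
    apply Multiset.prod_eq_one
    intro y hy
    obtain ⟨a, ha, rfl⟩ := Multiset.mem_map.1 hy
    exact max_eq_left (hcon a ha)
  rw [h3] at h2
  have hj := Tau.isAlgQ
  obtain ⟨e⟩ : Nonempty (AlgebraicClosure ℚ →+* ℂ) :=
    ⟨((IsAlgClosed.lift : AlgebraicClosure ℚ →ₐ[ℚ] ℂ) : AlgebraicClosure ℚ →+* ℂ)⟩
  have h4 : e α ∈ (minpoly ℤ α).aroots ℂ := by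
    rw [mem_aroots]
    refine ⟨hm.ne_zero, ?_⟩
    have h5 := congrArg e (minpoly.aeval ℤ α)
    rw [map_zero, aeval_def, hom_eval₂] at h5
    rw [aeval_def, ← h5]
    congr 1
    exact Subsingleton.elim _ _
  obtain ⟨n, hn, hn1⟩ := Polynomial.pow_eq_one_of_mahlerMeasure_eq_one h2
    ((map_ne_zero e).mpr h0) h4
  apply h1 n hn
  apply e.injective
  rw [map_pow, hn1, map_one]

/-- the data of an algebraic integer -/
theorem data (hAL1 : S_AL1) (hAL2 : S_AL2) (α : AlgebraicClosure ℚ) (hα : IsIntegral ℤ α)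
    (h0 : α ≠ 0) (h1 : ∀ n : ℕ, 0 < n → α ^ n ≠ 1) :
    ∃ (m : ℕ) (_ : NeZero m) (f : (𝓞 (CyclotomicField m ℚ))[X]), f.Monic ∧
      Irreducible (f.map (algebraMap (𝓞 (CyclotomicField m ℚ)) (CyclotomicField m ℚ))) ∧
      f.natDegree = (minpoly Qab α).natDegree ∧ 0 < f.natDegree ∧
      (∀ σ : CyclotomicField m ℚ →+* ℂ, ∃ τ : Qab →+* ℂ, f.map (emb σ) = (minpoly Qab α).map τ) ∧
      (∀ g : ℂ → ℝ, ((minpoly ℤ α).natDegree : ℝ) *
        ∑ σ : CyclotomicField m ℚ →+* ℂ, ((f.map (emb σ)).roots.map g).sum =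
      (Module.finrank ℚ (CyclotomicField m ℚ) : ℝ) * f.natDegree *
        (((minpoly ℤ α).map (Int.castRingHom ℂ)).roots.map g).sum) ∧
      (∃ (σ : CyclotomicField m ℚ →+* ℂ), ∃ z ∈ zs σ f, 1 < ‖z‖) := by
  obtain ⟨m, hm0, f, j, hfm, hfi, hfd, hfj⟩ := hAL1 α hα
  have hmean := hAL2 (CyclotomicField m ℚ) f j α hfm hfi hfj
  have hn : 0 < (minpoly ℤ α).natDegree := minpoly.natDegree_pos hα
  have hfd0 : 0 < f.natDegree := by
    rw [hfd]
    exact minpoly.natDegree_pos hα.tower_top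
  refine ⟨m, hm0, f, hfm, hfi, hfd, hfd0, Tau.exists_tau f j α hfm hα hfd hfj, hmean, ?_⟩
  obtain ⟨z, hz, hz1⟩ := exists_big α hα h0 h1
  by_contra hcon
  push Not at hcon
  have h2 := hmean fun z => Real.posLog ‖z‖
  have h3 : ∑ σ : CyclotomicField m ℚ →+* ℂ,
      ((f.map (emb σ)).roots.map fun z => Real.posLog ‖z‖).sum = 0 := by
    apply Finset.sum_eq_zero
    intro σ _
    apply Multiset.sum_eq_zero
    intro y hy
    obtain ⟨w, hw, rfl⟩ := Multiset.mem_map.1 hy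
    have hw' : w ∈ zs σ f := by
      rw [zs_eq σ f hfm]
      exact hw
    rw [Real.posLog_eq_zero_iff, abs_norm]
    exact hcon σ w hw'
  rw [h3, mul_zero] at h2
  have h4 : 0 < (((minpoly ℤ α).map (Int.castRingHom ℂ)).roots.map
      fun z => Real.posLog ‖z‖).sum := by
    have h5 : Real.posLog ‖z‖ ≤ (((minpoly ℤ α).map (Int.castRingHom ℂ)).roots.map
        fun z => Real.posLog ‖z‖).sum := by
      apply Multiset.single_le_sum
      · intro y hy
        obtain ⟨w, -, rfl⟩ := Multiset.mem_map.1 hy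
        exact Real.posLog_nonneg
      · exact Multiset.mem_map_of_mem _ hz
    have h6 : 0 < Real.posLog ‖z‖ := by
      rw [Real.posLog_eq_log (by rw [abs_norm]; exact hz1.le)]
      exact Real.log_pos hz1
    linarith
  have h5 : (0 : ℝ) < Module.finrank ℚ (CyclotomicField m ℚ) := by
    exact_mod_cast Module.finrank_pos
  have h6 : (0 : ℝ) < f.natDegree := by exact_mod_cast hfd0
  have h7 := mul_pos (mul_pos h5 h6) h4
  linarith

/-- the mean of the areas is at least `1 / (640 D ^ 2)` and the quadratic mean -/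
theorem quad (hmain : S_MAIN) (hAL1 : S_AL1) (hAL2 : S_AL2) (hSUM : S_SUM2)
    (α : AlgebraicClosure ℚ) (hα : IsIntegral ℤ α) (h0 : α ≠ 0)
    (h1 : ∀ n : ℕ, 0 < n → α ^ n ≠ 1) :
    1 / (640 * ((minpoly Qab α).natDegree : ℝ) ^ 2) ≤
      (((minpoly ℤ α).map (Int.castRingHom ℂ)).roots.map fun z => (Real.posLog ‖z‖) ^ 2).sum /
        (minpoly ℤ α).natDegree := by
  obtain ⟨m, hm0, f, hfm, hfi, hfd, hfd0, -, hmean, hbig⟩ := data hAL1 hAL2 α hα h0 h1
  have hcy : IsCyclotomicExtension {m} ℚ (CyclotomicField m ℚ) :=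
    CyclotomicField.isCyclotomicExtension m ℚ
  have h2 := hmain m (CyclotomicField m ℚ) f hfm hfi hbig
  have h3 : ∑ σ : CyclotomicField m ℚ →+* ℂ, area (zs σ f) ≤
      ∑ σ : CyclotomicField m ℚ →+* ℂ,
        ((f.map (emb σ)).roots.map fun z => (Real.posLog ‖z‖) ^ 2).sum := by
    apply Finset.sum_le_sum
    intro σ _
    rw [zs_eq σ f hfm]
    exact hSUM _
  have h4 := hmean fun z => (Real.posLog ‖z‖) ^ 2
  obtain ⟨M, hM⟩ : ∃ M : ℝ, M = (Module.finrank ℚ (CyclotomicField m ℚ) : ℝ) := ⟨_, rfl⟩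
  obtain ⟨n, hn⟩ : ∃ n : ℝ, n = ((minpoly ℤ α).natDegree : ℝ) := ⟨_, rfl⟩
  obtain ⟨D, hD⟩ : ∃ D : ℝ, D = ((minpoly Qab α).natDegree : ℝ) := ⟨_, rfl⟩
  have hM0 : 0 < M := by
    rw [hM]
    exact_mod_cast Module.finrank_pos
  have hn0 : 0 < n := by
    rw [hn]
    exact_mod_cast minpoly.natDegree_pos hα
  have hD0 : 0 < D := by
    rw [hD]
    exact_mod_cast minpoly.natDegree_pos (hα.tower_top (A := Qab))
  rw [hfd] at h2 h4
  rw [← hM, ← hD] at h2
  rw [← hM, ← hn, ← hD] at h4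
  rw [← hD, ← hn]
  obtain ⟨S, hS⟩ : ∃ S : ℝ, S = (((minpoly ℤ α).map (Int.castRingHom ℂ)).roots.map
    fun z => (Real.posLog ‖z‖) ^ 2).sum := ⟨_, rfl⟩
  rw [← hS] at h4 ⊢
  obtain ⟨W, hW⟩ : ∃ W : ℝ, W = ∑ σ : CyclotomicField m ℚ →+* ℂ,
        ((f.map (emb σ)).roots.map fun z => (Real.posLog ‖z‖) ^ 2).sum := ⟨_, rfl⟩
  rw [← hW] at h3 h4
  rw [div_le_div_iff₀ (by positivity) hn0]
  have h5 : M / 640 ≤ D * W := h2.trans (mul_le_mul_of_nonneg_left h3 hD0.le)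
  have h6 : n * (M / 640) ≤ D * (M * D * S) := by
    calc n * (M / 640) ≤ n * (D * W) := mul_le_mul_of_nonneg_left h5 hn0.le
      _ = D * (n * W) := by ring
      _ = _ := by rw [h4]
  have h7 : M * (n / 640) ≤ M * (D ^ 2 * S) := by
    calc M * (n / 640) = n * (M / 640) := by ring
      _ ≤ _ := h6
      _ = _ := by ring
  have h8 := le_of_mul_le_mul_left h7 hM0
  linarith

/-- crowded zeros -/
def Crowded (A : ℝ) (p : ℂ[X]) : Prop :=
  ∀ z ∈ p.roots, A ≤ p.natDegree * Real.log ‖z‖ →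
    p.natDegree * Real.log ‖z‖ ≤ A * ((p.roots.filter fun w => Real.log ‖z‖ ≤ A * Real.log ‖w‖ ∧
        ‖((w.arg - z.arg : ℝ) : AddCircle (2 * π))‖ ≤ A * Real.log ‖z‖).card : ℝ)

/-- Remond's inequality for crowded conjugates -/
theorem crowded (hmain : S_MAIN) (hAL1 : S_AL1) (hAL2 : S_AL2) (hCRW : S_CRW)
    (α : AlgebraicClosure ℚ) (hα : IsIntegral ℤ α) (h0 : α ≠ 0)
    (h1 : ∀ n : ℕ, 0 < n → α ^ n ≠ 1) (A : ℝ) (hA : 1 ≤ A)
    (hcr : ∀ τ : Qab →+* ℂ, Crowded A ((minpoly Qab α).map τ)) :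
    1 / (5760 * A ^ 3 * ((minpoly Qab α).natDegree : ℝ)) ≤
      (((minpoly ℤ α).map (Int.castRingHom ℂ)).roots.map fun z => Real.posLog ‖z‖).sum /
        (minpoly ℤ α).natDegree := by
  obtain ⟨m, hm0, f, hfm, hfi, hfd, hfd0, htau, hmean, hbig⟩ := data hAL1 hAL2 α hα h0 h1
  have hcy : IsCyclotomicExtension {m} ℚ (CyclotomicField m ℚ) :=
    CyclotomicField.isCyclotomicExtension m ℚ
  have h2 := hmain m (CyclotomicField m ℚ) f hfm hfi hbig
  have h4 := hmean fun z => Real.posLog ‖z‖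
  obtain ⟨M, hM⟩ : ∃ M : ℝ, M = (Module.finrank ℚ (CyclotomicField m ℚ) : ℝ) := ⟨_, rfl⟩
  obtain ⟨n, hn⟩ : ∃ n : ℝ, n = ((minpoly ℤ α).natDegree : ℝ) := ⟨_, rfl⟩
  obtain ⟨D, hD⟩ : ∃ D : ℝ, D = ((minpoly Qab α).natDegree : ℝ) := ⟨_, rfl⟩
  have hM0 : 0 < M := by
    rw [hM]
    exact_mod_cast Module.finrank_pos
  have hn0 : 0 < n := by
    rw [hn]
    exact_mod_cast minpoly.natDegree_pos hα
  have hD0 : 0 < D := by
    rw [hD]
    exact_mod_cast minpoly.natDegree_pos (hα.tower_top (A := Qab))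
  have h3 : ∀ σ : CyclotomicField m ℚ →+* ℂ, D * area (zs σ f) ≤
      9 * A ^ 3 * ((f.map (emb σ)).roots.map fun z => Real.posLog ‖z‖).sum := by
    intro σ
    have hc := card_roots' σ f hfm
    have h5 := hCRW (f.map (emb σ)).roots (by rw [hc]; exact hfd0) A hA (by
      obtain ⟨τ, hτ⟩ := htau σ
      have h6 := hcr τ
      rw [← hτ] at h6
      unfold Crowded at h6
      rw [hfm.natDegree_map] at h6
      rw [hc]
      exact h6)
    rw [hc, hfd, ← hD, ← zs_eq σ f hfm] at h5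
    exact h5
  rw [hfd] at h2 h4
  rw [← hM, ← hD] at h2
  rw [← hM, ← hn, ← hD] at h4
  rw [← hD, ← hn]
  obtain ⟨S, hS⟩ : ∃ S : ℝ, S = (((minpoly ℤ α).map (Int.castRingHom ℂ)).roots.map
    fun z => Real.posLog ‖z‖).sum := ⟨_, rfl⟩
  rw [← hS] at h4 ⊢
  obtain ⟨W, hW⟩ : ∃ W : ℝ, W = ∑ σ : CyclotomicField m ℚ →+* ℂ,
        ((f.map (emb σ)).roots.map fun z => Real.posLog ‖z‖).sum := ⟨_, rfl⟩
  have h6 : D * ∑ σ : CyclotomicField m ℚ →+* ℂ, area (zs σ f) ≤ 9 * A ^ 3 * W := by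
    rw [hW, Finset.mul_sum, Finset.mul_sum]
    exact Finset.sum_le_sum fun σ _ => h3 σ
  rw [← hW] at h4
  have hA3 : 0 < A ^ 3 := by positivity
  rw [div_le_div_iff₀ (by positivity) hn0]
  have h7 : M / 640 ≤ 9 * A ^ 3 * W := h2.trans h6
  have h8 : M * (n / 640) ≤ M * (9 * A ^ 3 * D * S) := by
    calc M * (n / 640) = n * (M / 640) := by ring
      _ ≤ n * (9 * A ^ 3 * W) := mul_le_mul_of_nonneg_left h7 hn0.le
      _ = 9 * A ^ 3 * (n * W) := by ring
      _ = _ := by rw [h4]; ring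
  have h9 := le_of_mul_le_mul_left h8 hM0
  linarith

end Fin

end Pool.Agent.P8H96.RL
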