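import Pool.Agent.P8H96.RL.Stm

set_option autoImplicit false

open Polynomial
open scoped Real NumberField

namespace Pool.Agent.P8H96.RL

open H904L2 Pool.Agent.N772.CZ

namespace Main

/-- the automorphism of the ring of integers -/
noncomputable def aut {k : Type} [Field k] (s : k ≃+* k) : 𝓞 k →+* 𝓞 k :=
  (NumberField.RingOfIntegers.mapRingEquiv s : 𝓞 k →+* 𝓞 k)

theorem aut_apply {k : Type} [Field k] (s : k ≃+* k) (x : 𝓞 k) :
    aut s x = NumberField.RingOfIntegers.mapRingEquiv s x := rfl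

theorem emb_aut {k : Type} [Field k] (σ : k →+* ℂ) (s : k ≃+* k) :
    (emb σ).comp (aut s) = emb (σ.comp (s : k →+* k)) := by
  ext x
  rfl

/-- composition of the embeddings with an automorphism -/
noncomputable def embEquiv {k : Type} [Field k] (s : k ≃+* k) : (k →+* ℂ) ≃ (k →+* ℂ) where
  toFun σ := σ.comp (s : k →+* k)
  invFun σ := σ.comp (s.symm : k →+* k)
  left_inv σ := by
    ext x
    simp
  right_inv σ := by
    ext x
    simp

theorem emb_injective {k : Type} [Field k] (σ : k →+* ℂ) : Function.Injective (emb σ) := by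
  intro x y h
  have h1 : σ (algebraMap (𝓞 k) k x) = σ (algebraMap (𝓞 k) k y) := h
  exact NumberField.RingOfIntegers.coe_injective (σ.injective h1)

/-- enumeration of the zeros -/
theorem exists_enum (p : ℂ[X]) (hp : p.Monic) (d : ℕ) (hd : p.natDegree = d) :
    ∃ α : Fin d → ℂ, p = ∏ i, (X - C (α i)) := by
  have h1 := (IsAlgClosed.splits p).eq_prod_roots_of_monic hp
  obtain ⟨l, hl⟩ : ∃ l : List ℂ, (l : Multiset ℂ) = p.roots := ⟨p.roots.toList, Multiset.coe_toList _⟩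
  have hlen : l.length = d := by
    have h2 : p.roots.card = p.natDegree := by
      conv_rhs => rw [h1, natDegree_multiset_prod_X_sub_C_eq_card]
    rw [← hd, ← h2, ← hl, Multiset.coe_card]
  subst hlen
  refine ⟨fun i => l.get i, ?_⟩
  conv_lhs => rw [h1, ← hl]
  rw [Multiset.map_coe, Multiset.prod_coe]
  have h3 : ∏ i : Fin l.length, (X - C (l.get i) : ℂ[X]) =
      (List.ofFn fun i : Fin l.length => (X - C (l.get i) : ℂ[X])).prod := (List.prod_ofFn).symm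
  rw [h3]
  congr 1
  have h4 : (List.ofFn fun i : Fin l.length => (X - C (l.get i) : ℂ[X])) =
      (List.ofFn l.get).map (fun z => (X - C z : ℂ[X])) := by
    rw [List.map_ofFn]
    rfl
  rw [h4, List.ofFn_get]

theorem mem_zs {k : Type} [Field k] (σ : k →+* ℂ) (P : (𝓞 k)[X]) (z : ℂ) :
    z ∈ zs σ P ↔ (P.map (emb σ)).eval z = 0 := Iff.rfl

theorem zs_eq_range {k : Type} [Field k] (σ : k →+* ℂ) (P : (𝓞 k)[X]) {d : ℕ} (α : Fin d → ℂ)
    (h : P.map (emb σ) = ∏ i, (X - C (α i))) : zs σ P = Set.range α := by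
  ext z
  rw [mem_zs, h, eval_prod, Finset.prod_eq_zero_iff]
  simp only [Finset.mem_univ, true_and, eval_sub, eval_X, eval_C, sub_eq_zero, Set.mem_range]
  constructor
  · rintro ⟨i, hi⟩
    exact ⟨i, hi.symm⟩
  · rintro ⟨i, hi⟩
    exact ⟨i, hi.symm⟩

theorem zs_finite {k : Type} [Field k] (σ : k →+* ℂ) (P : (𝓞 k)[X]) (hm : P.Monic) :
    (zs σ P).Finite := by
  obtain ⟨α, hα⟩ := exists_enum (P.map (emb σ)) (hm.map _) _ rfl
  rw [zs_eq_range σ P α hα]
  exact Set.finite_range _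

theorem map_map_emb {k : Type} [Field k] (σ : k →+* ℂ) (P : (𝓞 k)[X]) :
    P.map (emb σ) = (P.map (algebraMap (𝓞 k) k)).map σ := by
  rw [Polynomial.map_map]
  rfl

theorem enum_injective {k : Type} [Field k] [NumberField k] (σ : k →+* ℂ) (P : (𝓞 k)[X])
    (hi : Irreducible (P.map (algebraMap (𝓞 k) k))) {d : ℕ} (α : Fin d → ℂ)
    (h : P.map (emb σ) = ∏ i, (X - C (α i))) : Function.Injective α := by
  have h1 : (P.map (algebraMap (𝓞 k) k)).Separable := hi.separable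
  have h2 : (P.map (emb σ)).Separable := by
    rw [map_map_emb]
    exact h1.map
  rw [h] at h2
  have h3 := h2.injective_of_prod_X_sub_C
  exact h3

theorem reverse_emb {k : Type} [Field k] (σ : k →+* ℂ) (P : (𝓞 k)[X]) (hm : P.Monic) {d : ℕ}
    (α : Fin d → ℂ) (h : P.map (emb σ) = ∏ i, (X - C (α i))) :
    P.reverse.map (emb σ) = ∏ i, (1 - C (α i) * X) := by
  have h1 : (P.reverse).map (emb σ) = (P.map (emb σ)).reverse := by
    rw [reverse, reverse, hm.natDegree_map, reflect_map]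
  rw [h1, h, Main1.reverse_prod]

/-- rationality at all embeddings -/
theorem at_rel (hHB : S_HB) (hHZ : S_HZ) {k : Type} [Field k] [NumberField k] {ι : Type}
    [Fintype ι] [Nonempty ι] (a : (k →+* ℂ) → ι → ℂ) (ha : ∀ σ i, a σ i ≠ 0) (c : ℕ → 𝓞 k)
    (hc0 : c 0 = 1)
    (hc : ∀ σ, (PowerSeries.mk fun n => emb σ (c n)) ^ 2 =
      ((∏ i, (1 - C (a σ i) * X) : ℂ[X]) : PowerSeries ℂ))
    (hs : 16 * (Fintype.card ι : ℝ) * ∑ σ, area (Set.range (a σ)) < Module.finrank ℚ k) :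
    ∀ σ, ∃ P Q : ℂ[X], Q ≠ 0 ∧ Q ^ 2 * ∏ i, (1 - C (a σ i) * X) = P ^ 2 := by
  classical
  obtain ⟨G, hG⟩ : ∃ G : (k →+* ℂ) → ℝ, ∀ σ, G σ = π⁻¹ * (4411 / 560 * area (Set.range (a σ)) -
      105 / 2048 * (π ^ 2 / (Fintype.card ι : ℝ))) := ⟨_, fun _ => rfl⟩
  have hn1 : (1 : ℝ) ≤ (Fintype.card ι : ℝ) := by exact_mod_cast Fintype.card_pos
  obtain ⟨n, hn⟩ : ∃ n : ℝ, n = (Fintype.card ι : ℝ) := ⟨_, rfl⟩
  rw [← hn] at hs hn1
  have hn0 : 0 < n := by linarith
  obtain ⟨M, hM⟩ : ∃ M : ℝ, M = (Module.finrank ℚ k : ℝ) := ⟨_, rfl⟩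
  rw [← hM] at hs
  have hMpos : 0 < M := by
    rw [hM]
    exact_mod_cast Module.finrank_pos
  have hcard : (Fintype.card (k →+* ℂ) : ℝ) = M := by
    rw [hM, NumberField.Embeddings.card k ℂ]
  have hπ : 0 < π := Real.pi_pos
  have hπ2 : 9.8 < π ^ 2 := by
    have := Real.pi_gt_d4
    nlinarith
  have hsum : ∑ σ, G σ < 0 := by
    have h1 : ∑ σ, G σ = π⁻¹ * (4411 / 560 * (∑ σ, area (Set.range (a σ))) -
        M * (105 / 2048 * (π ^ 2 / n))) := by
      simp only [hG, ← hn]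
      rw [← Finset.mul_sum, Finset.sum_sub_distrib, ← Finset.mul_sum, Finset.sum_const,
        Finset.card_univ, nsmul_eq_mul, hcard]
    rw [h1]
    apply mul_neg_of_pos_of_neg (by positivity)
    have h2 : ∑ σ, area (Set.range (a σ)) < M / (16 * n) := by
      rw [lt_div_iff₀ (by positivity)]
      linarith
    have h3 : M * (105 / 2048 * (π ^ 2 / n)) = 105 / 2048 * π ^ 2 * 16 * (M / (16 * n)) := by
      field_simp
    rw [h3]
    have h4 : 0 < M / (16 * n) := by positivity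
    nlinarith [mul_lt_mul_of_pos_right hπ2 h4]
  obtain ⟨η, hη⟩ : ∃ η : ℝ, η = -(∑ σ, G σ) / (2 * M) := ⟨_, rfl⟩
  have hη0 : 0 < η := by
    rw [hη]
    apply div_pos (by linarith) (by positivity)
  have h5 : ∀ σ, ∃ b C : ℝ, 0 ≤ C ∧ ∀ N : ℕ, 0 < N →
      ‖(Matrix.of fun i j : Fin N => emb σ (c ((i : ℕ) + (j : ℕ)))).det‖ ≤
        Real.exp (N * b + (N : ℝ) ^ 2 * (G σ + η)) * ((N.factorial : ℝ) * C ^ N) := by
    intro σ
    exact hHB ι (a σ) (ha σ) (fun n => emb σ (c n)) (by simp [hc0]) (hc σ) (G σ + η)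
      (by rw [← hG]; linarith)
  choose b C hC0 hbC using h5
  have h6 : ∑ σ, (G σ + η) < 0 := by
    rw [Finset.sum_add_distrib, Finset.sum_const, Finset.card_univ, nsmul_eq_mul, hcard, hη]
    have h7 : M * (-(∑ σ, G σ) / (2 * M)) = -(∑ σ, G σ) / 2 := by
      field_simp
    rw [h7]
    linarith
  obtain ⟨N0, hN0⟩ := hHZ k c (fun σ => G σ + η) b C h6 hC0 hbC
  intro σ
  obtain ⟨P, Q, hQ, hPQ⟩ := kronecker (fun n => emb σ (c n)) N0 (by
    intro N hN
    have h8 := hN0 N hN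
    have h9 : (Matrix.of fun i j : Fin N => emb σ (c ((i : ℕ) + (j : ℕ)))) =
        (emb σ).mapMatrix (Matrix.of fun i j : Fin N => c ((i : ℕ) + (j : ℕ))) := by
      ext i j
      simp
    rw [h9, ← RingHom.map_det, h8, map_zero])
  refine ⟨P, Q, hQ, ?_⟩
  have h1 : ((Q : PowerSeries ℂ) * PowerSeries.mk (fun n => emb σ (c n))) ^ 2 =
      (P : PowerSeries ℂ) ^ 2 := by
    rw [hPQ]
  rw [mul_pow, hc] at h1
  have h2 : ((Q ^ 2 * ∏ i, (1 - Polynomial.C (a σ i) * X) : ℂ[X]) : PowerSeries ℂ) =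
      ((P ^ 2 : ℂ[X]) : PowerSeries ℂ) := by
    rw [Polynomial.coe_mul, Polynomial.coe_pow, Polynomial.coe_pow]
    exact h1
  exact Polynomial.coe_inj.1 h2

/-- the data attached to a monic irreducible polynomial -/
theorem exists_data {k : Type} [Field k] (P : (𝓞 k)[X]) (hm : P.Monic) :
    ∃ α : (k →+* ℂ) → Fin P.natDegree → ℂ, ∀ σ, P.map (emb σ) = ∏ i, (X - C (α σ i)) := by
  have h : ∀ σ : k →+* ℂ, ∃ α : Fin P.natDegree → ℂ, P.map (emb σ) = ∏ i, (X - C (α i)) :=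
    fun σ => exists_enum (P.map (emb σ)) (hm.map _) _ (hm.natDegree_map _)
  choose α hα using h
  exact ⟨α, hα⟩

theorem coeff_zero_of_prod {ι : Type} [Fintype ι] (b : ι → ℂ) :
    (∏ i, (1 - C (b i) * X) : ℂ[X]).coeff 0 = 1 := by
  rw [coeff_zero_eq_eval_zero, eval_prod]
  simp

theorem coeff_zero_one {k : Type} [Field k] [NumberField k] (A : (𝓞 k)[X]) (σ : k →+* ℂ)
    {ι : Type} [Fintype ι] (b : ι → ℂ) (h : A.map (emb σ) = ∏ i, (1 - C (b i) * X)) :
    A.coeff 0 = 1 := by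
  apply emb_injective σ
  rw [← coeff_map, h, coeff_zero_of_prod, map_one]

theorem exists_emb (k : Type) [Field k] [NumberField k] : Nonempty (k →+* ℂ) := inferInstance

/-- the power series and its conjugates -/
theorem exists_series (hSQ : S_SQ) {k : Type} [Field k] [NumberField k] {d : ℕ}
    (A B U : (𝓞 k)[X]) (hAB : B = A + 4 * U) (x y : (k →+* ℂ) → Fin d → ℂ)
    (hx : ∀ σ, A.map (emb σ) = ∏ i, (1 - C (x σ i) * X))
    (hy : ∀ σ, B.map (emb σ) = ∏ i, (1 - C (y σ i) * X)) :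
    ∃ c : ℕ → 𝓞 k, c 0 = 1 ∧ ∀ σ, (PowerSeries.mk fun n => emb σ (c n)) ^ 2 =
      ((∏ i, (1 - C (Sum.elim (x σ) (y σ) i) * X) : ℂ[X]) : PowerSeries ℂ) := by
  obtain ⟨σ0⟩ := exists_emb k
  obtain ⟨c, hc0, hc⟩ := hSQ (𝓞 k) A B U (coeff_zero_one A σ0 _ (hx σ0))
    (coeff_zero_one B σ0 _ (hy σ0)) hAB
  refine ⟨c, hc0, fun σ => ?_⟩
  have h1 : (PowerSeries.mk fun n => emb σ (c n)) = PowerSeries.map (emb σ) (PowerSeries.mk c) := by
    ext n
    simp
  rw [h1, ← map_pow, hc, ← Polynomial.polynomial_map_coe, Polynomial.map_mul, hx, hy,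
    Fintype.prod_sum_type]
  simp only [Sum.elim_inl, Sum.elim_inr]

theorem prod_elim {d : ℕ} (x y : Fin d → ℂ) :
    (∏ i, (1 - C (Sum.elim x y i) * X) : ℂ[X]) =
      (∏ i, (1 - C (x i) * X)) * ∏ i, (1 - C (y i) * X) := by
  rw [Fintype.prod_sum_type]
  simp only [Sum.elim_inl, Sum.elim_inr]

/-- area of the vertices -/
theorem area_union_le {Z W : Set ℂ} (hZ : Z.Finite) (hW : W.Finite) :
    area (Z ∪ W) ≤ area Z + area W := by
  have hπ := Real.pi_pos
  unfold area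
  rw [← intervalIntegral.integral_add ((RF_continuous hZ).intervalIntegrable _ _)
    ((RF_continuous hW).intervalIntegrable _ _)]
  apply intervalIntegral.integral_mono_on (by linarith)
    ((RF_continuous (hZ.union hW)).intervalIntegrable _ _)
    (((RF_continuous hZ).add (RF_continuous hW)).intervalIntegrable _ _)
  intro x _
  exact RF_union hZ hW x

theorem area_nonneg (Z : Set ℂ) : 0 ≤ area Z := by
  have hπ := Real.pi_pos
  exact intervalIntegral.integral_nonneg (by linarith) fun u _ => RF_nonneg _ u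

theorem area_range_sq {ι : Type} [Fintype ι] (x : ι → ℂ) :
    area (Set.range fun i => (x i) ^ 2) ≤ 4 * area (Set.range x) := by
  have h1 : (Set.range fun i => (x i) ^ 2) = (fun z => z ^ 2) '' Set.range x := by
    rw [← Set.range_comp]
    rfl
  rw [h1]
  exact area_sq (Set.finite_range x)

theorem range_elim {d : ℕ} (x y : Fin d → ℂ) :
    Set.range (Sum.elim x y) = Set.range x ∪ Set.range y := by
  rw [Set.Sum.elim_range]

theorem coeff_reverse_mem {R : Type} [CommRing R] (P : R[X]) (n : ℕ) :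
    ∃ j, P.reverse.coeff n = P.coeff j := by
  rw [reverse, coeff_reflect]
  exact ⟨_, rfl⟩

theorem zero_not_mem {k : Type} [Field k] (σ : k →+* ℂ) (P : (𝓞 k)[X]) (h0 : P.coeff 0 ≠ 0) :
    (0 : ℂ) ∉ zs σ P := by
  intro h
  rw [mem_zs, ← coeff_zero_eq_eval_zero, coeff_map] at h
  exact h0 (emb_injective σ (by rw [h, map_zero]))

theorem aut_map_prod {k : Type} [Field k] (s : k ≃+* k) (A : (𝓞 k)[X]) {ι : Type} [Fintype ι]
    (x : (k →+* ℂ) → ι → ℂ) (hx : ∀ σ, A.map (emb σ) = ∏ i, (1 - C (x σ i) * X))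
    (σ : k →+* ℂ) :
    (A.map (aut s)).map (emb σ) = ∏ i, (1 - C (x (embEquiv s σ) i) * X) := by
  rw [Polynomial.map_map, emb_aut]
  exact hx (embEquiv s σ)

/-- the step with the Frobenius automorphism -/
theorem stepU (hHB : S_HB) (hHZ : S_HZ) (hSQ : S_SQ) (hGU : S_GU) (hGE : S_GE) (hODD : S_ODD)
    {k : Type} [Field k] [NumberField k] (P : (𝓞 k)[X]) (hm : P.Monic)
    (hi : Irreducible (P.map (algebraMap (𝓞 k) k))) (h0 : P.coeff 0 ≠ 0)
    (hbig : ∃ σ : k →+* ℂ, ∃ z ∈ zs σ P, 1 < ‖z‖)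
    (hinj : ∀ σ : k →+* ℂ, ∀ x ∈ zs σ P, ∀ y ∈ zs σ P, x ^ 2 = y ^ 2 → x = y)
    (φ : k ≃+* k) (hφ : ∀ n, ∃ y, (P.coeff n) ^ 2 = aut φ (P.coeff n) + 2 * y) :
    (Module.finrank ℚ k : ℝ) / 640 ≤ P.natDegree * ∑ σ : k →+* ℂ, area (zs σ P) := by
  classical
  obtain ⟨α, hα⟩ := exists_data P hm
  obtain ⟨d, hd⟩ : ∃ d, d = P.natDegree := ⟨_, rfl⟩
  revert α hα
  rw [← hd]
  intro α hα
  have hR := fun σ => reverse_emb σ P hm (α σ) (hα σ)
  have hzs := fun σ => zs_eq_range σ P (α σ) (hα σ)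
  obtain ⟨R2, hR2, hR2p⟩ := hGE (𝓞 k) P.reverse
  obtain ⟨R4, hR4, hR4p⟩ := hGE (𝓞 k) R2
  obtain ⟨U, hU⟩ := hGU (𝓞 k) (aut φ) P.reverse R2 R4 (by
    intro n
    obtain ⟨j, hj⟩ := coeff_reverse_mem P n
    rw [hj]
    exact hφ j) hR2 hR4
  have hR2m : ∀ σ, R2.map (emb σ) = ∏ i, (1 - C (α σ i ^ 2) * X) :=
    fun σ => hR2p (emb σ) _ (α σ) (hR σ)
  have hR4m : ∀ σ, R4.map (emb σ) = ∏ i, (1 - C ((α σ i ^ 2) ^ 2) * X) :=
    fun σ => hR4p (emb σ) _ (fun i => α σ i ^ 2) (hR2m σ)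
  have hA : ∀ σ, (R2.map (aut φ)).map (emb σ) =
      ∏ i, (1 - C (α (embEquiv φ σ) i ^ 2) * X) :=
    fun σ => aut_map_prod φ R2 (fun σ i => α σ i ^ 2) hR2m σ
  obtain ⟨c, hc0, hc⟩ := exists_series hSQ (R2.map (aut φ)) R4 U hU
    (fun σ i => α (embEquiv φ σ) i ^ 2) (fun σ i => (α σ i ^ 2) ^ 2) hA hR4m
  have hne : ∀ σ i, α σ i ≠ 0 := by
    intro σ i h
    apply zero_not_mem σ P h0
    rw [hzs σ]
    exact ⟨i, h⟩
  obtain ⟨σ0, z0, hz0, hz01⟩ := hbig
  have hdpos : 0 < d := by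
    rw [hzs σ0] at hz0
    obtain ⟨i, -⟩ := hz0
    exact i.pos
  have : Nonempty (Fin d) := ⟨⟨0, hdpos⟩⟩
  by_contra hcon
  push Not at hcon
  have hrat := at_rel hHB hHZ
    (fun σ => Sum.elim (fun i => α (embEquiv φ σ) i ^ 2) (fun i => (α σ i ^ 2) ^ 2)) (by
      intro σ i
      rcases i with i | i
      · exact pow_ne_zero _ (hne _ _)
      · exact pow_ne_zero _ (pow_ne_zero _ (hne _ _))) c hc0 hc (by
    have h1 : ∀ σ : k →+* ℂ, area (Set.range (Sum.elim (fun i => α (embEquiv φ σ) i ^ 2)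
        (fun i => (α σ i ^ 2) ^ 2))) ≤ 4 * area (zs (embEquiv φ σ) P) + 16 * area (zs σ P) := by
      intro σ
      rw [range_elim]
      refine (area_union_le (Set.finite_range _) (Set.finite_range _)).trans ?_
      have h2 := area_range_sq (α (embEquiv φ σ))
      have h3 := area_range_sq (α σ)
      have h4 := area_range_sq (fun i => α σ i ^ 2)
      rw [← hzs] at h2 h3
      linarith
    have h2 : ∑ σ : k →+* ℂ, area (Set.range (Sum.elim (fun i => α (embEquiv φ σ) i ^ 2)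
        (fun i => (α σ i ^ 2) ^ 2))) ≤ 20 * ∑ σ : k →+* ℂ, area (zs σ P) := by
      refine (Finset.sum_le_sum fun σ _ => h1 σ).trans ?_
      rw [Finset.sum_add_distrib, ← Finset.mul_sum, ← Finset.mul_sum,
        Equiv.sum_comp (embEquiv φ) (fun σ => area (zs σ P))]
      linarith
    rw [Fintype.card_sum, Fintype.card_fin]
    have hd' : (0 : ℝ) < d := by exact_mod_cast hdpos
    push_cast
    nlinarith)
  have hmatch : ∀ σ, ∀ i, ∃ j, (α σ j ^ 2) ^ 2 = α (embEquiv φ σ) i ^ 2 := by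
    intro σ
    obtain ⟨P', Q', hQ', hPQ'⟩ := hrat σ
    rw [prod_elim] at hPQ'
    refine hODD (Fin d) (Fin d) (fun i => α (embEquiv φ σ) i ^ 2) (fun i => (α σ i ^ 2) ^ 2)
      ?_ (fun i => pow_ne_zero _ (hne _ _)) (fun i => pow_ne_zero _ (pow_ne_zero _ (hne _ _)))
      P' Q' hQ' hPQ'
    intro i j hij
    have h5 := hinj (embEquiv φ σ) (α (embEquiv φ σ) i) (by rw [hzs]; exact ⟨i, rfl⟩)
      (α (embEquiv φ σ) j) (by rw [hzs]; exact ⟨j, rfl⟩) hij
    exact enum_injective _ P hi _ (hα _) h5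
  obtain ⟨⟨σ1, i1⟩, hmax⟩ := Finite.exists_max (fun p : (k →+* ℂ) × Fin d => ‖α p.1 p.2‖)
  have hgt : 1 < ‖α σ1 i1‖ := by
    rw [hzs σ0] at hz0
    obtain ⟨i, hi'⟩ := hz0
    have h6 := hmax (σ0, i)
    simp only at h6
    rw [hi'] at h6
    linarith
  choose j hj using hmatch σ1
  have hjinj : Function.Injective j := by
    intro i i' h
    have h7 : α (embEquiv φ σ1) i ^ 2 = α (embEquiv φ σ1) i' ^ 2 := by
      rw [← hj i, ← hj i', h]
    have h5 := hinj (embEquiv φ σ1) (α (embEquiv φ σ1) i) (by rw [hzs]; exact ⟨i, rfl⟩)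
      (α (embEquiv φ σ1) i') (by rw [hzs]; exact ⟨i', rfl⟩) h7
    exact enum_injective _ P hi _ (hα _) h5
  have hsurj := Finite.surjective_of_injective hjinj
  obtain ⟨i, hi2⟩ := hsurj i1
  have h := congrArg norm (hj i)
  rw [hi2, norm_pow, norm_pow, norm_pow] at h
  have hle := hmax (embEquiv φ σ1, i)
  simp only at hle
  have hnn := norm_nonneg (α (embEquiv φ σ1) i)
  nlinarith [sq_nonneg (‖α σ1 i1‖), mul_pos (by linarith : 0 < ‖α σ1 i1‖)
    (by linarith : 0 < ‖α σ1 i1‖ - 1)]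

/-- the step in the ramified case -/
theorem stepR (hHB : S_HB) (hHZ : S_HZ) (hSQ : S_SQ) (hGR : S_GR) (hGE : S_GE) (hODD : S_ODD)
    (hFACT : S_FACT)
    {k : Type} [Field k] [NumberField k] (P : (𝓞 k)[X]) (hm : P.Monic)
    (hi : Irreducible (P.map (algebraMap (𝓞 k) k))) (h0 : P.coeff 0 ≠ 0)
    (hbig : ∃ σ : k →+* ℂ, ∃ z ∈ zs σ P, 1 < ‖z‖)
    (hinj : ∀ σ : k →+* ℂ, ∀ x ∈ zs σ P, ∀ y ∈ zs σ P, x ^ 2 = y ^ 2 → x = y)
    (s : k ≃+* k) (hs : ∀ n, ∃ y, aut s (P.coeff n) = P.coeff n + 2 * y) :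
    (Module.finrank ℚ k : ℝ) / 640 ≤ P.natDegree * ∑ σ : k →+* ℂ, area (zs σ P) ∨
      P.map (aut s) = P ∨ P.map (aut s) = P.scaleRoots (-1) := by
  classical
  obtain ⟨α, hα⟩ := exists_data P hm
  obtain ⟨d, hd⟩ : ∃ d, d = P.natDegree := ⟨_, rfl⟩
  revert α hα
  rw [← hd]
  intro α hα
  have hR := fun σ => reverse_emb σ P hm (α σ) (hα σ)
  have hzs := fun σ => zs_eq_range σ P (α σ) (hα σ)
  obtain ⟨R2, hR2, hR2p⟩ := hGE (𝓞 k) P.reverse
  obtain ⟨U, hU⟩ := hGR (𝓞 k) (aut s) P.reverse R2 (by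
    intro n
    obtain ⟨j, hj⟩ := coeff_reverse_mem P n
    rw [hj]
    exact hs j) hR2
  have hR2m : ∀ σ, R2.map (emb σ) = ∏ i, (1 - C (α σ i ^ 2) * X) :=
    fun σ => hR2p (emb σ) _ (α σ) (hR σ)
  have hB : ∀ σ, (R2.map (aut s)).map (emb σ) =
      ∏ i, (1 - C (α (embEquiv s σ) i ^ 2) * X) :=
    fun σ => aut_map_prod s R2 (fun σ i => α σ i ^ 2) hR2m σ
  obtain ⟨c, hc0, hc⟩ := exists_series hSQ R2 (R2.map (aut s)) U hU
    (fun σ i => α σ i ^ 2) (fun σ i => α (embEquiv s σ) i ^ 2) hR2m hB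
  have hne : ∀ σ i, α σ i ≠ 0 := by
    intro σ i h
    apply zero_not_mem σ P h0
    rw [hzs σ]
    exact ⟨i, h⟩
  obtain ⟨σ0, z0, hz0, hz01⟩ := hbig
  have hdpos : 0 < d := by
    rw [hzs σ0] at hz0
    obtain ⟨i, -⟩ := hz0
    exact i.pos
  have : Nonempty (Fin d) := ⟨⟨0, hdpos⟩⟩
  by_cases hcon : (Module.finrank ℚ k : ℝ) / 640 ≤ d * ∑ σ : k →+* ℂ, area (zs σ P)
  · exact Or.inl hcon
  right
  push Not at hcon
  have hrat := at_rel hHB hHZ
    (fun σ => Sum.elim (fun i => α σ i ^ 2) (fun i => α (embEquiv s σ) i ^ 2)) (by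
      intro σ i
      rcases i with i | i
      · exact pow_ne_zero _ (hne _ _)
      · exact pow_ne_zero _ (hne _ _)) c hc0 hc (by
    have h1 : ∀ σ : k →+* ℂ, area (Set.range (Sum.elim (fun i => α σ i ^ 2)
        (fun i => α (embEquiv s σ) i ^ 2))) ≤ 4 * area (zs σ P) +
          4 * area (zs (embEquiv s σ) P) := by
      intro σ
      rw [range_elim]
      refine (area_union_le (Set.finite_range _) (Set.finite_range _)).trans ?_
      have h2 := area_range_sq (α (embEquiv s σ))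
      have h3 := area_range_sq (α σ)
      rw [← hzs] at h2 h3
      linarith
    have h2 : ∑ σ : k →+* ℂ, area (Set.range (Sum.elim (fun i => α σ i ^ 2)
        (fun i => α (embEquiv s σ) i ^ 2))) ≤ 8 * ∑ σ : k →+* ℂ, area (zs σ P) := by
      refine (Finset.sum_le_sum fun σ _ => h1 σ).trans ?_
      rw [Finset.sum_add_distrib, ← Finset.mul_sum, ← Finset.mul_sum,
        Equiv.sum_comp (embEquiv s) (fun σ => area (zs σ P))]
      linarith
    have h3 : 0 ≤ ∑ σ : k →+* ℂ, area (zs σ P) := Finset.sum_nonneg fun σ _ => area_nonneg _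
    rw [Fintype.card_sum, Fintype.card_fin]
    have hd' : (0 : ℝ) < d := by exact_mod_cast hdpos
    push_cast
    nlinarith)
  obtain ⟨P', Q', hQ', hPQ'⟩ := hrat σ0
  rw [prod_elim] at hPQ'
  have i0 : Fin d := ⟨0, hdpos⟩
  obtain ⟨j, hj⟩ := hODD (Fin d) (Fin d) (fun i => α σ0 i ^ 2)
    (fun i => α (embEquiv s σ0) i ^ 2) (by
      intro i j hij
      have h5 := hinj σ0 (α σ0 i) (by rw [hzs]; exact ⟨i, rfl⟩)
        (α σ0 j) (by rw [hzs]; exact ⟨j, rfl⟩) hij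
      exact enum_injective _ P hi _ (hα _) h5)
    (fun i => pow_ne_zero _ (hne _ _)) (fun i => pow_ne_zero _ (hne _ _)) P' Q' hQ' hPQ' i0
  have hirr' : Irreducible ((P.map (aut s)).map (algebraMap (𝓞 k) k)) := by
    have h6 : (P.map (aut s)).map (algebraMap (𝓞 k) k) =
        Polynomial.mapEquiv s (P.map (algebraMap (𝓞 k) k)) := by
      rw [Polynomial.mapEquiv_apply, Polynomial.map_map, Polynomial.map_map]
      rfl
    rw [h6]
    exact (MulEquiv.irreducible_iff (Polynomial.mapEquiv s)).mpr hi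
  exact hFACT k P (P.map (aut s)) hm (hm.map _) hi hirr' σ0 (α σ0 i0) (α (embEquiv s σ0) j)
    (by rw [hzs]; exact ⟨i0, rfl⟩) (by
      rw [mem_zs, Polynomial.map_map, emb_aut]
      have h7 : α (embEquiv s σ0) j ∈ zs (embEquiv s σ0) P := by
        rw [hzs]
        exact ⟨j, rfl⟩
      exact h7) hj.symm

theorem coeff_zero_ne {k : Type} [Field k] [NumberField k] (P : (𝓞 k)[X]) (hm : P.Monic)
    (hi : Irreducible (P.map (algebraMap (𝓞 k) k)))
    (hbig : ∃ σ : k →+* ℂ, ∃ z ∈ zs σ P, 1 < ‖z‖) : P.coeff 0 ≠ 0 := by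
  intro h0
  obtain ⟨σ, z, hz, hz1⟩ := hbig
  have h1 : (P.map (algebraMap (𝓞 k) k)).coeff 0 = 0 := by rw [coeff_map, h0, map_zero]
  obtain ⟨g, hg⟩ := Polynomial.X_dvd_iff.mpr h1
  rcases hi.isUnit_or_isUnit hg with h | h
  · exact Polynomial.not_isUnit_X h
  · obtain ⟨u, hu, rfl⟩ := Polynomial.isUnit_iff.mp h
    rw [mem_zs, map_map_emb, hg, Polynomial.map_mul, map_X, map_C, eval_mul, eval_X, eval_C] at hz
    rcases mul_eq_zero.mp hz with h2 | h2
    · rw [h2, norm_zero] at hz1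
      linarith
    · exact hu.ne_zero ((map_eq_zero σ).mp h2)

/-- the inequality -/
def Bd {k : Type} [Field k] [NumberField k] (P : (𝓞 k)[X]) : Prop :=
  (Module.finrank ℚ k : ℝ) / 640 ≤ P.natDegree * ∑ σ : k →+* ℂ, area (zs σ P)

/-- the even case -/
theorem stepE (hEV : S_EV) {k : Type} [Field k] [NumberField k] (P : (𝓞 k)[X]) (hm : P.Monic)
    (hi : Irreducible (P.map (algebraMap (𝓞 k) k)))
    (hbig : ∃ σ : k →+* ℂ, ∃ z ∈ zs σ P, 1 < ‖z‖)
    (hninj : ¬ ∀ σ : k →+* ℂ, ∀ x ∈ zs σ P, ∀ y ∈ zs σ P, x ^ 2 = y ^ 2 → x = y) :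
    ∃ G : (𝓞 k)[X], G.Monic ∧ Irreducible (G.map (algebraMap (𝓞 k) k)) ∧
      G.natDegree < P.natDegree ∧ (∀ n, ∃ j, G.coeff n = P.coeff j) ∧
      (∃ σ : k →+* ℂ, ∃ z ∈ zs σ G, 1 < ‖z‖) ∧ (Bd G → Bd P) := by
  have h0 := coeff_zero_ne P hm hi hbig
  push Not at hninj
  obtain ⟨σ, x, hx, y, hy, hxy, hne⟩ := hninj
  obtain ⟨G, hGm, hGi, hPG⟩ := hEV k P hm hi h0 σ x y hx hy hne hxy
  have hdeg : P.natDegree = G.natDegree * 2 := by
    rw [hPG, natDegree_comp, natDegree_X_pow]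
  have hGpos : 0 < G.natDegree := by
    rcases Nat.eq_zero_or_pos G.natDegree with h | h
    · exfalso
      have h1 : G = 1 := hGm.natDegree_eq_zero.mp h
      rw [h1, Polynomial.map_one] at hGi
      exact not_irreducible_one hGi
    · exact h
  have hsq : ∀ (τ : k →+* ℂ) (z : ℂ), z ^ 2 ∈ zs τ G ↔ z ∈ zs τ P := by
    intro τ z
    rw [mem_zs, mem_zs, hPG, Polynomial.map_comp, Polynomial.map_pow, map_X, eval_comp, eval_pow,
      eval_X]
  refine ⟨G, hGm, hGi, by omega, ?_, ?_, ?_⟩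
  · intro n
    refine ⟨n * 2, ?_⟩
    rw [hPG, ← expand_eq_comp_X_pow, coeff_expand_mul (by norm_num : 0 < 2)]
  · obtain ⟨τ, z, hz, hz1⟩ := hbig
    refine ⟨τ, z ^ 2, (hsq τ z).mpr hz, ?_⟩
    rw [norm_pow]
    exact one_lt_pow₀ hz1 (by norm_num)
  · intro hB
    unfold Bd at hB ⊢
    have h1 : ∀ τ : k →+* ℂ, area (zs τ G) ≤ 2 * area (zs τ P) := by
      intro τ
      exact area_sqrt (zs_finite τ P hm) (zs_finite τ G hGm) fun z hz => (hsq τ z).mp hz
    have h2 : ∑ τ : k →+* ℂ, area (zs τ G) ≤ 2 * ∑ τ : k →+* ℂ, area (zs τ P) := by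
      rw [Finset.mul_sum]
      exact Finset.sum_le_sum fun τ _ => h1 τ
    rw [hdeg]
    push_cast
    have h3 : (0 : ℝ) ≤ G.natDegree := Nat.cast_nonneg _
    nlinarith [mul_le_mul_of_nonneg_left h2 h3]

/-- the twist by a unit -/
theorem twist (hSC : S_SC) (hROT : S_ROT) {k : Type} [Field k] [NumberField k] (P : (𝓞 k)[X])
    (hm : P.Monic) (hi : Irreducible (P.map (algebraMap (𝓞 k) k)))
    (hbig : ∃ σ : k →+* ℂ, ∃ z ∈ zs σ P, 1 < ‖z‖) (u : (𝓞 k)ˣ)
    (hu : ∀ σ : k →+* ℂ, ‖emb σ u‖ = 1) :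
    (P.scaleRoots (u : 𝓞 k)).Monic ∧
      Irreducible ((P.scaleRoots (u : 𝓞 k)).map (algebraMap (𝓞 k) k)) ∧
      (P.scaleRoots (u : 𝓞 k)).natDegree = P.natDegree ∧
      (∃ σ : k →+* ℂ, ∃ z ∈ zs σ (P.scaleRoots (u : 𝓞 k)), 1 < ‖z‖) ∧
      (Bd (P.scaleRoots (u : 𝓞 k)) → Bd P) := by
  obtain ⟨h1, h2⟩ := hSC k P u hm hi
  refine ⟨(monic_scaleRoots_iff _).mpr hm, h1, natDegree_scaleRoots _ _, ?_, ?_⟩
  · obtain ⟨σ, z, hz, hz1⟩ := hbig
    refine ⟨σ, emb σ u * z, ?_, ?_⟩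
    · rw [h2 σ]
      exact ⟨z, hz, rfl⟩
    · rw [norm_mul, hu, one_mul]
      exact hz1
  · unfold Bd
    rw [natDegree_scaleRoots]
    have h3 : ∀ σ : k →+* ℂ, area (zs σ (P.scaleRoots (u : 𝓞 k))) = area (zs σ P) := by
      intro σ
      rw [h2 σ]
      exact hROT _ (zs_finite σ P hm) _ (hu σ)
    rw [Finset.sum_congr rfl fun σ _ => h3 σ]
    exact id

/-- the main inequality from the packages -/
theorem main (hHB : S_HB) (hHZ : S_HZ) (hSQ : S_SQ) (hGU : S_GU) (hGR : S_GR) (hGE : S_GE)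
    (hODD : S_ODD) (hFACT : S_FACT) (hEV : S_EV) (hSC : S_SC) (hROT : S_ROT) (hCYC : S_CYC) :
    S_MAIN := by
  classical
  intro m _ k _ _ _ f hfm hfi hfbig
  obtain ⟨T, O, u, hO0, hu1, huO, hstep, φ, hφ⟩ := hCYC m k
  have key : ∀ r, r ≤ T → ∀ (n : ℕ) (P : (𝓞 k)[X]), P.natDegree = n → P.Monic →
      Irreducible (P.map (algebraMap (𝓞 k) k)) → (∀ j, P.coeff j ∈ O (T - r)) →
      (∃ σ : k →+* ℂ, ∃ z ∈ zs σ P, 1 < ‖z‖) → Bd P := by
    intro r
    induction r with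
    | zero =>
      intro _ n
      induction n using Nat.strong_induction_on with
      | _ n ih =>
        intro P hn hm hi hO hbig
        by_cases hinj : ∀ σ : k →+* ℂ, ∀ x ∈ zs σ P, ∀ y ∈ zs σ P, x ^ 2 = y ^ 2 → x = y
        · exact stepU hHB hHZ hSQ hGU hGE hODD P hm hi (coeff_zero_ne P hm hi hbig) hbig hinj φ
            (fun j => hφ _ (by simpa using hO j))
        · obtain ⟨G, hGm, hGi, hGd, hGc, hGb, hGB⟩ := stepE hEV P hm hi hbig hinj
          refine hGB (ih G.natDegree (by omega) G rfl hGm hGi ?_ hGb)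
          intro j
          obtain ⟨l, hl⟩ := hGc j
          rw [hl]
          exact hO l
    | succ r ihr =>
      intro hr n
      have hlt : T - (r + 1) < T := by omega
      have hsucc : T - (r + 1) + 1 = T - r := by omega
      obtain ⟨s, hs1, hs2, hs3⟩ := hstep (T - (r + 1)) hlt
      rw [hsucc] at hs3
      induction n using Nat.strong_induction_on with
      | _ n ih =>
        intro P hn hm hi hO hbig
        by_cases hinj : ∀ σ : k →+* ℂ, ∀ x ∈ zs σ P, ∀ y ∈ zs σ P, x ^ 2 = y ^ 2 → x = y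
        · rcases stepR hHB hHZ hSQ hGR hGE hODD hFACT P hm hi (coeff_zero_ne P hm hi hbig) hbig
            hinj s (fun j => hs1 _ (hO j)) with h | h | h
          · exact h
          · refine ihr (by omega) n P hn hm hi ?_ hbig
            intro j
            apply hs3 _ (hO j)
            rw [← aut_apply, ← coeff_map, h]
          · obtain ⟨h1, h2, h3, h4, h5⟩ := twist hSC hROT P hm hi hbig (u (T - (r + 1)))
              (fun σ => hu1 σ _)
            refine h5 (ihr (by omega) n _ (by rw [h3, hn]) h1 h2 ?_ h4)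
            intro j
            have hmem : (P.scaleRoots (u (T - (r + 1)) : 𝓞 k)).coeff j ∈ O (T - (r + 1)) := by
              rw [coeff_scaleRoots]
              exact (O _).mul_mem (hO j) ((O _).pow_mem (huO _) _)
            apply hs3 _ hmem
            rw [← aut_apply, coeff_scaleRoots, map_mul, map_pow, aut_apply s (u (T - (r + 1)) : 𝓞 k),
              hs2, ← coeff_map, h, coeff_scaleRoots, mul_assoc, ← mul_pow]
            congr 2
            ring
        · obtain ⟨G, hGm, hGi, hGd, hGc, hGb, hGB⟩ := stepE hEV P hm hi hbig hinj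
          refine hGB (ih G.natDegree (by omega) G rfl hGm hGi ?_ hGb)
          intro j
          obtain ⟨l, hl⟩ := hGc j
          rw [hl]
          exact hO l
  exact key T le_rfl _ f rfl hfm hfi (by
    intro j
    rw [Nat.sub_self, hO0]
    trivial) hfbig

end Main

end Pool.Agent.P8H96.RL
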