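import Pool.Agent.N772.CZ.Crowd

/-!
# Project RL: the quadratic mean and area forms of Lehmer's inequality relative to all roots of unity

Target (row MP_187c26_nt).  Let `k` be a cyclotomic field, `f` a monic irreducible polynomial with
integral coefficients in `k`, not all of whose conjugates have all zeros in the closed unit disc.
Then `[k : ℚ] ≤ 640 * deg f * ∑ σ, (area under the roof of the zeros of f^σ)`.

Proof.  As in Dimitrov's proof: `f = √(φ(R_2) R_4)` has coefficients in `𝓞 k`, where `R` is the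
reversed polynomial, `R_2, R_4` its Graeffe transforms and `φ` an automorphism with
`φ x = x ^ 2` modulo `2` for the coefficients; where `2` is ramified one uses `√(R_2 s(R_2))` with
`s x = x` modulo `2`.  The Hankel determinants are bounded at every embedding, the product of the
bounds is less than one, so they vanish and the power series is rational: contradiction, or the
square class is trivial and a root of unity multiple descends to a smaller cyclotomic field.
-/

set_option autoImplicit false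

open Polynomial
open scoped Real NumberField

namespace Pool.Agent.P8H96.RL

open H904L2 Pool.Agent.N772.CZ

/-- the embedding of the ring of integers attached to an embedding of the field -/
noncomputable def emb {k : Type} [Field k] (σ : k →+* ℂ) : 𝓞 k →+* ℂ :=
  σ.comp (algebraMap (𝓞 k) k)

/-- the complex zeros of the conjugate of a polynomial -/
def zs {k : Type} [Field k] (σ : k →+* ℂ) (f : (𝓞 k)[X]) : Set ℂ :=
  {z | (f.map (emb σ)).eval z = 0}

/-- the area under the roof of a set of complex numbers -/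
noncomputable def area (Z : Set ℂ) : ℝ := ∫ x in (-π)..π, RF Z x

/-- **PSI** (120 lines).  Copy of `Pool.Agent.N772.CZ.exists_Psi'` (file N772/CZ/AT.lean) with the
quantitative conclusion.  In that proof take `e > 0` small instead of `1 / (2000 n)`; the final
computation there gives `F + 2 ε ≤ π⁻¹ (4411/560 * IS - 105/2048 * IR + 105/512 * π * e)` with
`IS ≤ ∫ roof + e`, `IR ≥ π ^ 2 / n`, `ε = κ₀ e`, `κ₀ = 105/1024`; so choose
`e` with `π⁻¹ * (4411/560 + 105/512 * π) * e` less than the gap in the hypothesis. -/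
def S_PSI : Prop :=
  ∀ (ι : Type) [Fintype ι] [Nonempty ι] (θ ℓ : ι → ℝ), (∀ i, 0 ≤ ℓ i) → ∀ κ : ℝ,
    π⁻¹ * (4411 / 560 * (∫ x in (-π)..π, roof θ ℓ x) -
      105 / 2048 * (π ^ 2 / (Fintype.card ι : ℝ))) < κ →
    ∃ (Ψ : ℂ → ℝ) (T ε : ℝ), 0 < T ∧ ContDiff ℝ 1 Ψ ∧
      (∀ w, Ψ (w + 2 * π * Complex.I) = Ψ w) ∧ (∀ w : ℂ, T ≤ |w.re| → Ψ w = 0) ∧
      (∀ i, ∀ t : ℝ, t ≤ ℓ i → max t 0 - Ψ (t + θ i * Complex.I) ≤ ε) ∧
      (2 * π)⁻¹ * (∫ w in strip, dirE Ψ w) +
        2 * ((2 * π)⁻¹ * ∫ x in (-π)..π, Ψ (x * Complex.I)) + 2 * ε < κ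

/-- **HB** (150 lines, theorem `hb : S_PSI → S_HB`).  The proofs of `H904L2.AT1` (AT1.lean) and
`H904L2.det_lt_one` (DetBound.lean) up to the last step, with a complex sequence `c` instead of an
integer one and without the assumption that the exponent is negative: `energy_bound`,
`Kset_close`, `contour_bound`, `exists_fekete`, `hankel_eq`, `det_sq` are used as there
(`Pool.Agent.N772.CZ.AT2'` shows how `exists_phi` and PSI enter, `roof_eq_RF` converts the roof of
the family into `RF (Set.range a)`).  Choose `κ'` with `hypothesis < κ' < κ`, apply PSI with `κ'`,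
and `η'` with `ε < η'`, `F + 2 η' ≤ κ`. -/
def S_HB : Prop :=
  ∀ (ι : Type) [Fintype ι] [Nonempty ι] (a : ι → ℂ), (∀ i, a i ≠ 0) → ∀ c : ℕ → ℂ, c 0 = 1 →
    (PowerSeries.mk c) ^ 2 = ((∏ i, (1 - C (a i) * X) : ℂ[X]) : PowerSeries ℂ) → ∀ κ : ℝ,
    π⁻¹ * (4411 / 560 * area (Set.range a) - 105 / 2048 * (π ^ 2 / (Fintype.card ι : ℝ))) < κ →
    ∃ b C : ℝ, 0 ≤ C ∧ ∀ N : ℕ, 0 < N →
      ‖(Matrix.of fun i j : Fin N => c ((i : ℕ) + (j : ℕ))).det‖ ≤
        Real.exp (N * b + (N : ℝ) ^ 2 * κ) * ((N.factorial : ℝ) * C ^ N)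

/-- **HZ** (90 lines).  The absolute value of the norm (`Algebra.norm ℤ`, or
`Algebra.norm_eq_prod_embeddings`) of the determinant `Δ_N` is the product over `σ` of
`‖emb σ Δ_N‖`, `emb σ Δ_N` is the determinant of the image matrix (`RingHom.map_det`), the product
of the bounds is `exp (N ∑ b + N ^ 2 ∑ κ) * (N! ^ M * (∏ C) ^ N)` which is less than one for large
`N` (compare `H904L2.DetBound.numeric`; `N! ^ M ≤ exp (M N log N)`), and a nonzero integer has
absolute value at least one. -/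
def S_HZ : Prop :=
  ∀ (k : Type) [Field k] [NumberField k] (c : ℕ → 𝓞 k) (κ b C : (k →+* ℂ) → ℝ),
    ∑ σ, κ σ < 0 → (∀ σ, 0 ≤ C σ) →
    (∀ σ, ∀ N : ℕ, 0 < N → ‖(Matrix.of fun i j : Fin N => emb σ (c ((i : ℕ) + (j : ℕ)))).det‖ ≤
        Real.exp (N * b σ + (N : ℝ) ^ 2 * κ σ) * ((N.factorial : ℝ) * C σ ^ N)) →
    ∃ N0 : ℕ, ∀ N, N0 ≤ N → (Matrix.of fun i j : Fin N => c ((i : ℕ) + (j : ℕ))).det = 0

/-- **SQ** (80 lines).  The quotient `v = U / A` is a power series with `v(0) = 0` (as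
`4 U(0) = 0`); there is a power series `s` with `s + s ^ 2 = v`, `s(0) = 0` (recursion
`s_n = v_n - ∑_{i + j = n, i, j > 0} s_i s_j`), and `f = A (1 + 2 s)` has
`f ^ 2 = A ^ 2 (1 + 4 v) = A B`. -/
def S_SQ : Prop :=
  ∀ (O : Type) [CommRing O] [IsDomain O] [CharZero O] (A B U : O[X]), A.coeff 0 = 1 →
    B.coeff 0 = 1 → B = A + 4 * U →
    ∃ c : ℕ → O, c 0 = 1 ∧ (PowerSeries.mk c) ^ 2 = ((A * B : O[X]) : PowerSeries O)

/-- **GU** (80 lines; compare `H904L2.graeffe_congr` in Graeffe.lean).  Modulo `2` one has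
`R(X) R(-X) = R(X) ^ 2 = (φ R)(X ^ 2)`, so `R2 = φ R + 2 V`; then
`R4(X ^ 2) = R2(X) R2(-X) = φR(X) φR(-X) + 2 (φR(X) V(-X) + V(X) φR(-X)) + 4 V(X) V(-X)`, and
`V(-X) = V(X)`, `φR(-X) = φR(X)` modulo `2`. -/
def S_GU : Prop :=
  ∀ (O : Type) [CommRing O] [IsDomain O] [CharZero O] (φ : O →+* O) (R R2 R4 : O[X]),
    (∀ n, ∃ y, (R.coeff n) ^ 2 = φ (R.coeff n) + 2 * y) →
    R2.comp (X ^ 2) = R * R.comp (-X) → R4.comp (X ^ 2) = R2 * R2.comp (-X) →
    ∃ U : O[X], R4 = R2.map φ + 4 * U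

/-- **GR** (60 lines).  With `s R = R + 2 V`:
`(s R2)(X ^ 2) = (R(X) + 2 V(X)) (R(-X) + 2 V(-X))` and the mixed terms are
`2 (R(X) V(-X) + V(X) R(-X)) = 4 R V` modulo `4`. -/
def S_GR : Prop :=
  ∀ (O : Type) [CommRing O] [IsDomain O] [CharZero O] (s : O →+* O) (R R2 : O[X]),
    (∀ n, ∃ y, s (R.coeff n) = R.coeff n + 2 * y) →
    R2.comp (X ^ 2) = R * R.comp (-X) → ∃ U : O[X], R2.map s = R2 + 4 * U

/-- **GE** (40 lines).  `R(X) R(-X)` is even (`contract 2`, see `H904L2.exists_graeffe`); and the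
Graeffe transform of the polynomial with reciprocal zeros `a i` has the reciprocal zeros `a i ^ 2`
(see `H904L2.graeffe_prod`). -/
def S_GE : Prop :=
  ∀ (O : Type) [CommRing O] [IsDomain O] [CharZero O] (R : O[X]),
    ∃ R2 : O[X], R2.comp (X ^ 2) = R * R.comp (-X) ∧
      ∀ (e : O →+* ℂ) (ι : Type) [Fintype ι] (a : ι → ℂ),
        R.map e = ∏ i, (1 - C (a i) * X) → R2.map e = ∏ i, (1 - C (a i ^ 2) * X)

/-- **ODD** (60 lines; compare `H904L2.not_square` in NotSquare.lean).  The root `(x i)⁻¹` has even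
multiplicity on both sides, multiplicity one in the first product, so it is a root of the second
one. -/
def S_ODD : Prop :=
  ∀ (ι κ : Type) [Fintype ι] [Fintype κ] (x : ι → ℂ) (y : κ → ℂ), Function.Injective x →
    (∀ i, x i ≠ 0) → (∀ j, y j ≠ 0) → ∀ P Q : ℂ[X], Q ≠ 0 →
    Q ^ 2 * ((∏ i, (1 - C (x i) * X)) * ∏ j, (1 - C (y j) * X)) = P ^ 2 → ∀ i, ∃ j, y j = x i

/-- **ROT** (60 lines).  `spike (ω z) x = spike z (x - arg ω)` (periodicity of `dc`, the case
`z = 0` apart), so `RF (ω Z) x = RF Z (x - arg ω)`, and the integral of a periodic function over a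
period is translation invariant (`H904L2.integral_shift` or the lemma used in
`integral_shift'`). -/
def S_ROT : Prop :=
  ∀ Z : Set ℂ, Z.Finite → ∀ ω : ℂ, ‖ω‖ = 1 → area ((fun z => ω * z) '' Z) = area Z

/-- **EV** (100 lines; compare `H904L2.even_of_neg_root`).  `y = -x` is a zero, so the irreducible
polynomials `P(X)` and `P(-X)` over `k` have a common zero, hence are equal up to sign; as
`P(0) ≠ 0` the degree is even and `P = G(X ^ 2)`; a factorization of `G` gives one of `P`. -/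
def S_EV : Prop :=
  ∀ (k : Type) [Field k] [NumberField k] (P : (𝓞 k)[X]), P.Monic →
    Irreducible (P.map (algebraMap (𝓞 k) k)) → P.coeff 0 ≠ 0 →
    ∀ (σ : k →+* ℂ) (x y : ℂ), x ∈ zs σ P → y ∈ zs σ P → x ≠ y → x ^ 2 = y ^ 2 →
    ∃ G : (𝓞 k)[X], G.Monic ∧ Irreducible (G.map (algebraMap (𝓞 k) k)) ∧ P = G.comp (X ^ 2)

/-- **FACT** (60 lines).  `w = z` or `w = -z`; the irreducible monic polynomials `P'` and `P`, or
`P'` and `P.scaleRoots (-1)`, have a common complex zero under `σ`, so they are not coprime over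
`k`, so they are equal. -/
def S_FACT : Prop :=
  ∀ (k : Type) [Field k] [NumberField k] (P P' : (𝓞 k)[X]), P.Monic → P'.Monic →
    Irreducible (P.map (algebraMap (𝓞 k) k)) → Irreducible (P'.map (algebraMap (𝓞 k) k)) →
    ∀ (σ : k →+* ℂ) (z w : ℂ), z ∈ zs σ P → w ∈ zs σ P' → z ^ 2 = w ^ 2 →
      P' = P ∨ P' = P.scaleRoots (-1)

/-- **SC** (60 lines).  Multiplication of the zeros with a unit. -/
def S_SC : Prop :=
  ∀ (k : Type) [Field k] [NumberField k] (P : (𝓞 k)[X]) (u : (𝓞 k)ˣ), P.Monic →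
    Irreducible (P.map (algebraMap (𝓞 k) k)) →
      Irreducible ((P.scaleRoots (u : 𝓞 k)).map (algebraMap (𝓞 k) k)) ∧
      ∀ σ : k →+* ℂ, zs σ (P.scaleRoots (u : 𝓞 k)) = (fun z => emb σ u * z) '' zs σ P

/-- **CYC** (200 lines).  The structure of a cyclotomic field needed here.  `𝓞 k = ℤ[ζ]`
(`IsCyclotomicExtension.Rat.isIntegralClosure_adjoin_singleton`), `ζ` a primitive `m`-th root of
unity.

* `m` odd: `T = 0`, `O = ⊤`, `φ ζ = ζ ^ 2` (an automorphism, as `2` is prime to `m`).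
* `m = 2 mod 4`: `T = 0`, `O = ⊤`, `φ ζ = ζ ^ (2 + m / 2) = - ζ ^ 2`.
* `4 ∣ m`: let `2 ^ (T + 1)` be the exact power of `2` in `m`, `O t = ℤ[ζ ^ (2 ^ t)]` and
  `u t = ζ ^ (2 ^ t)`.  For `t < T` let `s ζ = ζ ^ e`, `e = 1 + m / 2 ^ (t + 1)`, which is prime to
  `m` since `m / 2 ^ (t + 1)` is even and divisible by all odd primes dividing `m`; then
  `s (u t) = u t ^ (1 + m / 2 ^ (t + 1)) = - u t`.  For `x = g(u t)`, `g ∈ ℤ[X]`, one has
  `s x - x = g(-u) - g(u) ∈ 2 ℤ[u]`, and if `s x = x` then `2 x = g(u) + g(-u) = 2 g_even(u)`, so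
  `x = g_even(u) ∈ ℤ[u ^ 2] = O (t + 1)`.
  Let `φ ζ = ζ ^ e`, `e = 2 + m / 2 ^ (T + 1)` (odd, and prime to the odd primes dividing `m`);
  then for `u = u T`: `φ u = - u ^ 2`, and for `x = ∑ a_i u ^ i`: `x ^ 2 = ∑ a_i ^ 2 u ^ (2 i) =
  ∑ a_i (- u ^ 2) ^ i = φ x` modulo `2`. -/
def S_CYC : Prop :=
  ∀ (m : ℕ) [NeZero m] (k : Type) [Field k] [NumberField k] [IsCyclotomicExtension {m} ℚ k],
    ∃ (T : ℕ) (O : ℕ → Subring (𝓞 k)) (u : ℕ → (𝓞 k)ˣ), O 0 = ⊤ ∧
      (∀ (σ : k →+* ℂ) t, ‖emb σ (u t)‖ = 1) ∧ (∀ t, (u t : 𝓞 k) ∈ O t) ∧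
      (∀ t < T, ∃ s : k ≃+* k,
        (∀ x ∈ O t, ∃ y, NumberField.RingOfIntegers.mapRingEquiv s x = x + 2 * y) ∧
        NumberField.RingOfIntegers.mapRingEquiv s (u t) = - (u t : 𝓞 k) ∧
        (∀ x ∈ O t, NumberField.RingOfIntegers.mapRingEquiv s x = x → x ∈ O (t + 1))) ∧
      (∃ φ : k ≃+* k, ∀ x ∈ O T, ∃ y, x ^ 2 = NumberField.RingOfIntegers.mapRingEquiv φ x + 2 * y)

/-- **CRW** (150 lines).  Copy of `Pool.Agent.N772.CZ.area_le` for an arbitrary nonempty multiset of
complex numbers instead of the zeros of an integer polynomial. -/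
def S_CRW : Prop :=
  ∀ (s : Multiset ℂ), 0 < s.card → ∀ A : ℝ, 1 ≤ A →
    (∀ z ∈ s, A ≤ s.card * Real.log ‖z‖ →
      s.card * Real.log ‖z‖ ≤ A * ((s.filter fun w => Real.log ‖z‖ ≤ A * Real.log ‖w‖ ∧
          ‖((w.arg - z.arg : ℝ) : AddCircle (2 * π))‖ ≤ A * Real.log ‖z‖).card : ℝ)) →
    (s.card : ℝ) * area {z | z ∈ s} ≤ 9 * A ^ 3 * (s.map fun z => Real.posLog ‖z‖).sum

/-- **SUM2** (30 lines).  The area is at most the sum of the `(log⁺ |z|) ^ 2`: the roof is at most
the sum of the spikes, `spike_eq` and `H904L2.Envelope.integral_tent`. -/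
def S_SUM2 : Prop :=
  ∀ s : Multiset ℂ, area {z | z ∈ s} ≤ (s.map fun z => Real.posLog ‖z‖ ^ 2).sum

/-- the field generated by all roots of unity -/
noncomputable def Qab : IntermediateField ℚ (AlgebraicClosure ℚ) :=
  IntermediateField.adjoin ℚ {ζ | ∃ n : ℕ, 0 < n ∧ ζ ^ n = 1}

/-- **AL1** (150 lines).  The minimal polynomial of an algebraic integer over the field generated by
all roots of unity has coefficients in a cyclotomic field, so it comes from a monic polynomial
`f` with coefficients in `𝓞 (CyclotomicField m ℚ)` (through some embedding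
`j : CyclotomicField m ℚ → AlgebraicClosure ℚ`). -/
def S_AL1 : Prop :=
  ∀ α : AlgebraicClosure ℚ, IsIntegral ℤ α →
    ∃ (m : ℕ) (_ : NeZero m) (f : (𝓞 (CyclotomicField m ℚ))[X])
      (j : CyclotomicField m ℚ →+* AlgebraicClosure ℚ), f.Monic ∧
      Irreducible (f.map (algebraMap (𝓞 (CyclotomicField m ℚ)) (CyclotomicField m ℚ))) ∧
      f.natDegree = (minpoly Qab α).natDegree ∧
      ((f.map (algebraMap (𝓞 (CyclotomicField m ℚ)) (CyclotomicField m ℚ))).map j).eval α = 0

/-- **AL2** (150 lines).  Let `f` be a monic polynomial with integral coefficients in the number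
field `k`, irreducible over `k`, and `α` a zero of `f` (for an embedding `j` of `k`).  The product
of the conjugates of `f` is a power of the minimal polynomial of `α`: it has rational coefficients
(its coefficients are fixed by all automorphisms of `ℂ`, or it is the norm of `f` from `k(X)` to
`ℚ(X)`, or the characteristic polynomial of `α` in `k(α)`), and all its zeros are conjugates of
`α`.  So for every function `g` the mean of `g` over the zeros of the conjugates of `f` is the mean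
of `g` over the conjugates of `α`. -/
def S_AL2 : Prop :=
  ∀ (k : Type) [Field k] [NumberField k] (f : (𝓞 k)[X]) (j : k →+* AlgebraicClosure ℚ)
    (α : AlgebraicClosure ℚ), f.Monic → Irreducible (f.map (algebraMap (𝓞 k) k)) →
    ((f.map (algebraMap (𝓞 k) k)).map j).eval α = 0 → ∀ g : ℂ → ℝ,
    ((minpoly ℤ α).natDegree : ℝ) * ∑ σ : k →+* ℂ, ((f.map (emb σ)).roots.map g).sum =
      (Module.finrank ℚ k : ℝ) * f.natDegree *
        (((minpoly ℤ α).map (Int.castRingHom ℂ)).roots.map g).sum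

/-- **DEG** (60 lines).  Degrees over subfields of a finite extension `F` of the field generated by
all roots of unity. -/
def S_DEG : Prop :=
  ∀ (F : IntermediateField Qab (AlgebraicClosure ℚ)), FiniteDimensional Qab F →
    ∀ L : IntermediateField ℚ (AlgebraicClosure ℚ), (∀ x ∈ L, x ∈ F) → ∀ α : AlgebraicClosure ℚ,
      (minpoly Qab α).natDegree ≤ Module.finrank Qab F * (minpoly L α).natDegree

/-- the main inequality -/
def S_MAIN : Prop :=
  ∀ (m : ℕ) [NeZero m] (k : Type) [Field k] [NumberField k] [IsCyclotomicExtension {m} ℚ k]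
    (f : (𝓞 k)[X]), f.Monic → Irreducible (f.map (algebraMap (𝓞 k) k)) →
    (∃ (σ : k →+* ℂ), ∃ z ∈ zs σ f, 1 < ‖z‖) →
    (Module.finrank ℚ k : ℝ) / 640 ≤ f.natDegree * ∑ σ : k →+* ℂ, area (zs σ f)

end Pool.Agent.P8H96.RL
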