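import Pool.Agent.P8H96.RL.Main

set_option autoImplicit false

open Polynomial
open scoped Real NumberField

namespace Pool.Agent.P8H96.RL

namespace Tau

theorem isAlgQ : Algebra.IsAlgebraic ℚ (AlgebraicClosure ℚ) := AlgebraicClosure.isAlgebraic ℚ

theorem isAlgQab : Algebra.IsAlgebraic ℚ Qab :=
  have := isAlgQ
  Algebra.IsAlgebraic.of_injective Qab.val Qab.val.injective

/-- a cyclotomic field maps into the field generated by the roots of unity -/
theorem mem_Qab {m : ℕ} [NeZero m] (j : CyclotomicField m ℚ →+* AlgebraicClosure ℚ)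
    (y : CyclotomicField m ℚ) : j y ∈ Qab := by
  have hcy : IsCyclotomicExtension {m} ℚ (CyclotomicField m ℚ) :=
    CyclotomicField.isCyclotomicExtension m ℚ
  obtain ⟨ζ, hζ⟩ : ∃ ζ : CyclotomicField m ℚ, IsPrimitiveRoot ζ m :=
    ⟨_, IsCyclotomicExtension.zeta_spec m ℚ (CyclotomicField m ℚ)⟩
  have htop : Algebra.adjoin ℚ ({ζ} : Set (CyclotomicField m ℚ)) = ⊤ :=
    IsCyclotomicExtension.adjoin_primitive_root_eq_top hζ
  have hy : y ∈ Algebra.adjoin ℚ ({ζ} : Set (CyclotomicField m ℚ)) := by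
    rw [htop]
    exact Algebra.mem_top
  induction hy using Algebra.adjoin_induction with
  | mem x hx =>
    rw [Set.mem_singleton_iff] at hx
    subst hx
    apply IntermediateField.subset_adjoin
    refine ⟨m, Nat.pos_of_ne_zero (NeZero.ne m), ?_⟩
    rw [← map_pow, hζ.pow_eq_one, map_one]
  | algebraMap r =>
    have h1 : j (algebraMap ℚ (CyclotomicField m ℚ) r) =
        algebraMap ℚ (AlgebraicClosure ℚ) r := by
      have h2 : (j.comp (algebraMap ℚ (CyclotomicField m ℚ))) =
          algebraMap ℚ (AlgebraicClosure ℚ) := Subsingleton.elim _ _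
      exact congrArg (fun F : ℚ →+* AlgebraicClosure ℚ => F r) h2
    rw [h1]
    exact Qab.algebraMap_mem r
  | add x y _ _ hx hy =>
    rw [map_add]
    exact add_mem hx hy
  | mul x y _ _ hx hy =>
    rw [map_mul]
    exact mul_mem hx hy

/-- the conjugates of the polynomial of AL1 are the conjugates of the minimal polynomial -/
theorem exists_tau {m : ℕ} [NeZero m] (f : (𝓞 (CyclotomicField m ℚ))[X])
    (j : CyclotomicField m ℚ →+* AlgebraicClosure ℚ) (α : AlgebraicClosure ℚ) (hm : f.Monic)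
    (hα : IsIntegral ℤ α) (hd : f.natDegree = (minpoly Qab α).natDegree)
    (h0 : ((f.map (algebraMap (𝓞 (CyclotomicField m ℚ)) (CyclotomicField m ℚ))).map j).eval α = 0)
    (σ : CyclotomicField m ℚ →+* ℂ) :
    ∃ τ : Qab →+* ℂ, f.map (emb σ) = (minpoly Qab α).map τ := by
  classical
  obtain ⟨j', hj'⟩ : ∃ j' : CyclotomicField m ℚ →+* Qab, ∀ y, ((j' y : Qab) :
      AlgebraicClosure ℚ) = j y :=
    ⟨j.codRestrict Qab.toSubfield.toSubring (mem_Qab j), fun _ => rfl⟩
  obtain ⟨g, hg⟩ : ∃ g, g = f.map (algebraMap (𝓞 (CyclotomicField m ℚ)) (CyclotomicField m ℚ)) :=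
    ⟨_, rfl⟩
  have hgm : g.Monic := by
    rw [hg]
    exact hm.map _
  have hgd : g.natDegree = f.natDegree := by
    rw [hg]
    exact hm.natDegree_map _
  rw [← hg] at h0
  have h1 : (g.map j').map (algebraMap Qab (AlgebraicClosure ℚ)) = g.map j := by
    rw [Polynomial.map_map]
    congr 1
    ext y
    exact hj' y
  have h2 : aeval α (g.map j') = 0 := by
    rw [← eval_map_algebraMap, h1]
    exact h0
  have h3 : minpoly Qab α ∣ g.map j' := minpoly.dvd _ _ h2
  have h4 : minpoly Qab α = g.map j' := by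
    symm
    apply Polynomial.eq_of_monic_of_dvd_of_natDegree_le (minpoly.monic hα.tower_top)
      (hgm.map _) h3
    rw [hgm.natDegree_map, hgd, hd]
  have h5 : ∃ τ : Qab →+* ℂ, τ.comp j' = σ := by
    let i1 : Algebra (CyclotomicField m ℚ) Qab := j'.toAlgebra
    let i2 : Algebra (CyclotomicField m ℚ) ℂ := σ.toAlgebra
    have i5 := isAlgQab
    have i3 : IsScalarTower ℚ (CyclotomicField m ℚ) Qab :=
      IsScalarTower.of_algebraMap_eq' (Subsingleton.elim _ _)
    have i4 : Algebra.IsAlgebraic (CyclotomicField m ℚ) Qab :=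
      Algebra.IsAlgebraic.tower_top (K := ℚ) (CyclotomicField m ℚ)
    refine ⟨((IsAlgClosed.lift : Qab →ₐ[CyclotomicField m ℚ] ℂ) : Qab →+* ℂ), ?_⟩
    ext y
    exact (IsAlgClosed.lift : Qab →ₐ[CyclotomicField m ℚ] ℂ).commutes y
  obtain ⟨τ, hτ⟩ := h5
  refine ⟨τ, ?_⟩
  rw [h4, Polynomial.map_map, hτ, hg, Polynomial.map_map]
  rfl

end Tau

end Pool.Agent.P8H96.RL
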